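import Mathlib

namespace Pool.Agent.Results.MP_039f74_co.Counterexample

/-- The edge boundary `∂_S (A)`. -/
def bdry {G : Type} [AddCommGroup G] [DecidableEq G] (S A : Finset G) : ℕ :=
  ((A ×ˢ S).filter fun p => p.1 + p.2 ∉ A).card

abbrev G0 := ZMod 2 × ZMod 2 × ZMod 4

def S0 : Finset G0 := {(0, 0, 1), (1, 0, 1), (0, 1, 1)}

theorem gen : AddSubgroup.closure (S0 : Set G0) = ⊤ := by
  have h : ∀ x : G0, ∃ a b c : Fin 4, x = a.val • ((0, 0, 1) : G0) + b.val • ((1, 0, 1) : G0)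
      + c.val • ((0, 1, 1) : G0) := by decide +kernel
  refine eq_top_iff.2 fun x _ => ?_
  obtain ⟨a, b, c, rfl⟩ := h x
  exact add_mem (add_mem (nsmul_mem (AddSubgroup.subset_closure (by simp [S0])) _)
    (nsmul_mem (AddSubgroup.subset_closure (by simp [S0])) _))
    (nsmul_mem (AddSubgroup.subset_closure (by simp [S0])) _)

theorem rk : AddGroup.rank G0 = 3 := by
  refine le_antisymm ((AddGroup.rank_le gen).trans (by decide)) ?_
  obtain ⟨T, h1, h2⟩ := AddGroup.rank_spec G0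
  by_contra hc
  obtain ⟨a, b, hT⟩ : ∃ a b : G0, T ⊆ {a, b} := by
    have : T.card = 0 ∨ T.card = 1 ∨ T.card = 2 := by omega
    rcases this with h | h | h
    · exact ⟨0, 0, by simp [Finset.card_eq_zero.1 h]⟩
    · obtain ⟨a, rfl⟩ := Finset.card_eq_one.1 h
      exact ⟨a, a, by simp⟩
    · obtain ⟨a, b, -, rfl⟩ := Finset.card_eq_two.1 h
      exact ⟨a, b, le_rfl⟩
  have h3 : AddSubgroup.closure ({a, b} : Set G0) = ⊤ :=
    eq_top_iff.2 (h2.ge.trans (AddSubgroup.closure_mono (by simpa using Finset.coe_subset.2 hT)))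
  have key : ∀ a b : G0, ∃ u v w : Bool, (u || v || w) = true ∧ ∀ x ∈ ({a, b} : Finset G0),
      (if u then x.1 else 0) + (if v then x.2.1 else 0) +
        (if w then (x.2.2.cast : ZMod 2) else 0) = 0 := by decide +kernel
  obtain ⟨u, v, w, h4, h5⟩ := key a b
  have h6 : ∀ x : G0, (if u then x.1 else 0) + (if v then x.2.1 else 0) +
      (if w then (x.2.2.cast : ZMod 2) else 0) = 0 := by
    intro x
    have hx : x ∈ AddSubgroup.closure ({a, b} : Set G0) := h3 ▸ AddSubgroup.mem_top x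
    induction hx using AddSubgroup.closure_induction with
    | mem x hx => exact h5 x (by simpa using hx)
    | zero => simp
    | add x y _ _ hx hy => revert hx hy; clear * -; revert u v w x y; decide +kernel
    | neg x _ hx => revert hx; clear * -; revert u v w x; decide +kernel
  revert h4 h6
  clear * -
  revert u v w
  decide +kernel

/-- The implication fails for `G = ℤ/2 × ℤ/2 × ℤ/4`. -/
theorem result : ¬ ∀ (G : Type) [AddCommGroup G] [Fintype G] [DecidableEq G] (S A : Finset G)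
    (γ : ℝ) (d : ℕ), AddSubgroup.closure (S : Set G) = ⊤ → 0 < γ → γ ≤ 1 → A.Nonempty →
    IsLeast (addOrderOf '' (S : Set G)) d →
    (bdry S A : ℝ) ≤ (1 - γ) * AddGroup.rank G * A.card →
    (4 : ℝ) ^ ((1 - 1 / (d : ℝ)) * γ * AddGroup.rank G) ≤ A.card := by
  intro h
  have ho : ∀ s ∈ S0, addOrderOf s = 4 := by
    have : ∀ s ∈ S0, 4 • s = 0 ∧ ∀ m < 4, 0 < m → m • s ≠ 0 := by decide +kernel
    exact fun s hs => (addOrderOf_eq_iff (by norm_num)).2 (this s hs)
  have h1 := h G0 S0 Finset.univ 1 4 gen one_pos le_rfl Finset.univ_nonempty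
    ⟨⟨(0, 0, 1), by simp [S0], ho _ (by simp [S0])⟩, by
      rintro _ ⟨s, hs, rfl⟩
      exact (ho s hs).ge⟩ (by simp [bdry])
  rw [rk, show (Finset.univ : Finset G0).card = 16 by decide +kernel] at h1
  have h2 : (4 : ℝ) ^ (2 : ℝ) < (4 : ℝ) ^ ((1 - 1 / ((4 : ℕ) : ℝ)) * 1 * (3 : ℕ)) :=
    Real.rpow_lt_rpow_of_exponent_lt (by norm_num) (by norm_num)
  norm_num at h1 h2
  linarith

end Pool.Agent.Results.MP_039f74_co.Counterexample
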